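import Mathlib

set_option autoImplicit false

open scoped BigOperators
open Finset

namespace Pool.Agent.Results.MP_a2a8ea_mp.ExpLower

/-- A PEPS tensor with physical dimension `d` and bond dimension `D`. The arguments are the physical
index and then the virtual indices left, right, up, down. -/
abbrev Tensor (d D : ℕ) : Type := Fin d → Fin D → Fin D → Fin D → Fin D → ℂ

/-- Assignments of virtual indices to all edges touching an `n × n` square. In `(h, v)`, the index of
the horizontal edge to the left of column `i` (`i = n`: to the right of the last column) in row `j`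
is `h i j`, and the index of the vertical edge below row `j` (`j = n`: above the last row) in column
`i` is `v i j`. -/
abbrev Edges (D n : ℕ) : Type := (Fin (n + 1) → Fin n → Fin D) × (Fin n → Fin (n + 1) → Fin D)

/-- Assignments of virtual indices to the `4 n` edges leaving an `n × n` square, in the order left,
right, top, bottom; they label the standard basis of the boundary space. -/
abbrev Bdry (D n : ℕ) : Type :=
  (Fin n → Fin D) × (Fin n → Fin D) × (Fin n → Fin D) × (Fin n → Fin D)

/-- The part of an edge assignment on the edges leaving the square. -/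
def bd {D n : ℕ} (e : Edges D n) : Bdry D n :=
  (fun j => e.1 0 j, fun j => e.1 (Fin.last n) j, fun i => e.2 i (Fin.last n), fun i => e.2 i 0)

/-- The product of the tensor entries over the sites of the square, for a given assignment of
physical indices `s` and of virtual indices `e`. -/
noncomputable def weight {d D n : ℕ} (A : Tensor d D) (s : Fin n → Fin n → Fin d)
    (e : Edges D n) : ℂ :=
  ∏ i, ∏ j, A (s i j) (e.1 i.castSucc j) (e.1 i.succ j) (e.2 i j.succ) (e.2 i j.castSucc)

/-- The linear map from the boundary space `(ℂ^D)^{⊗ 4n}` of the `n × n` square to its physical space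
`(ℂ^d)^{⊗ n^2}`, obtained by contracting all inner edges. -/
noncomputable def Gam {d D : ℕ} (A : Tensor d D) (n : ℕ) :
    (Bdry D n → ℂ) →ₗ[ℂ] ((Fin n → Fin n → Fin d) → ℂ) where
  toFun X := fun s => ∑ e : Edges D n, X (bd e) * weight A s e
  map_add' X Y := by
    funext s
    simp [add_mul, Finset.sum_add_distrib]
  map_smul' c X := by
    funext s
    simp [Finset.mul_sum, mul_assoc]

/-- The `n × n` square is an injective region. -/
def InjectiveSquare {d D : ℕ} (A : Tensor d D) (n : ℕ) : Prop := Function.Injective (Gam A n)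

/-- Normality: some square region is injective. -/
def IsNormal {d D : ℕ} (A : Tensor d D) : Prop := ∃ n, 1 ≤ n ∧ InjectiveSquare A n

/-- The injectivity index: the least side of an injective square region. -/
noncomputable def injIndex {d D : ℕ} (A : Tensor d D) : ℕ := sInf {n | 1 ≤ n ∧ InjectiveSquare A n}

/-- `F D`: the supremum of the injectivity indices of all normal tensors of bond dimension `D`. -/
noncomputable def F (D : ℕ) : ℕ∞ := ⨆ (d : ℕ) (A : Tensor d D) (_ : IsNormal A), (injIndex A : ℕ∞)

/-! ### Tile tensors -/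

section tiles

variable {D : ℕ} (T : Fin D → Fin D → Fin D → Fin D → Prop)

abbrev Tile (D : ℕ) : Type := Fin D × Fin D × Fin D × Fin D

noncomputable def q (D : ℕ) : Tile D ≃ Fin (Fintype.card (Tile D)) := Fintype.equivFin _

open Classical in
/-- the tensor of a tile set -/
noncomputable def tens : Tensor (Fintype.card (Tile D)) D :=
  fun p l r u d => if q D (l, r, u, d) = p ∧ T l r u d then 1 else 0

def Valid {n : ℕ} (e : Edges D n) : Prop :=
  ∀ i j, T (e.1 i.castSucc j) (e.1 i.succ j) (e.2 i j.succ) (e.2 i j.castSucc)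

def Fillable (n : ℕ) (b : Bdry D n) : Prop := ∃ e : Edges D n, bd e = b ∧ Valid T e

lemma weight_ne {n : ℕ} (s : Fin n → Fin n → Fin (Fintype.card (Tile D))) (e : Edges D n)
    (h : weight (tens T) s e ≠ 0) : Valid T e ∧ ∀ i j,
      s i j = q D (e.1 i.castSucc j, e.1 i.succ j, e.2 i j.succ, e.2 i j.castSucc) := by
  unfold weight at h
  have h1 : ∀ i j, tens T (s i j) (e.1 i.castSucc j) (e.1 i.succ j) (e.2 i j.succ)
      (e.2 i j.castSucc) ≠ 0 := by
    intro i j h0
    apply h
    apply Finset.prod_eq_zero (Finset.mem_univ i)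
    exact Finset.prod_eq_zero (Finset.mem_univ j) h0
  constructor
  · intro i j
    have := h1 i j
    unfold tens at this
    by_contra hc
    exact this (if_neg (fun hh => hc hh.2))
  · intro i j
    have := h1 i j
    unfold tens at this
    by_contra hc
    exact this (if_neg (fun hh => hc hh.1.symm))

lemma edges_ext {n : ℕ} (hn : 1 ≤ n) (e e' : Edges D n)
    (h : ∀ i j, q D (e.1 i.castSucc j, e.1 i.succ j, e.2 i j.succ, e.2 i j.castSucc)
      = q D (e'.1 i.castSucc j, e'.1 i.succ j, e'.2 i j.succ, e'.2 i j.castSucc)) : e = e' := by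
  have h' : ∀ i j, e.1 i.castSucc j = e'.1 i.castSucc j ∧ e.1 i.succ j = e'.1 i.succ j ∧
      e.2 i j.succ = e'.2 i j.succ ∧ e.2 i j.castSucc = e'.2 i j.castSucc := by
    intro i j
    have := (q D).injective (h i j)
    simpa using this
  apply Prod.ext
  · funext a j
    by_cases ha : a = Fin.last n
    · have := (h' ⟨n - 1, by omega⟩ j).2.1
      have e1 : (⟨n - 1, by omega⟩ : Fin n).succ = a := by
        rw [ha]; apply Fin.ext; simp; omega
      rwa [e1] at this
    · have hlt : a.val < n := by
        have := a.isLt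
        have : a.val ≠ n := fun hh => ha (Fin.ext hh)
        omega
      exact (h' ⟨a.val, hlt⟩ j).1
  · funext i a
    by_cases ha : a = Fin.last n
    · have := (h' i ⟨n - 1, by omega⟩).2.2.1
      have e1 : (⟨n - 1, by omega⟩ : Fin n).succ = a := by
        rw [ha]; apply Fin.ext; simp; omega
      rwa [e1] at this
    · have hlt : a.val < n := by
        have := a.isLt
        have : a.val ≠ n := fun hh => ha (Fin.ext hh)
        omega
      exact (h' i ⟨a.val, hlt⟩).2.2.2

lemma inj_of_fillable {n : ℕ} (hn : 1 ≤ n) (h : ∀ b, Fillable T n b) :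
    InjectiveSquare (tens T) n := by
  unfold InjectiveSquare
  rw [← LinearMap.ker_eq_bot, LinearMap.ker_eq_bot']
  intro X hX
  funext b
  obtain ⟨e, hb, hv⟩ := h b
  set s : Fin n → Fin n → Fin (Fintype.card (Tile D)) := fun i j =>
    q D (e.1 i.castSucc j, e.1 i.succ j, e.2 i j.succ, e.2 i j.castSucc) with hs
  have h1 : Gam (tens T) n X s = 0 := by rw [hX]; rfl
  have h2 : Gam (tens T) n X s = X (bd e) * weight (tens T) s e := by
    change ∑ e' : Edges D n, X (bd e') * weight (tens T) s e' = _
    apply Finset.sum_eq_single e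
    · intro e' _ hne
      by_contra hc
      have hw : weight (tens T) s e' ≠ 0 := fun h0 => hc (by rw [h0, mul_zero])
      have := (weight_ne T s e' hw).2
      exact hne (edges_ext hn e' e (fun i j => (this i j).symm))
    · intro hc; exact absurd (Finset.mem_univ _) hc
  have h3 : weight (tens T) s e = 1 := by
    unfold weight
    apply Finset.prod_eq_one
    intro i _
    apply Finset.prod_eq_one
    intro j _
    unfold tens
    rw [if_pos ⟨rfl, hv i j⟩]
  rw [h2, h3, mul_one, hb] at h1
  exact h1

lemma not_inj_of_not_fillable {n : ℕ} (b : Bdry D n) (h : ¬ Fillable T n b) :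
    ¬ InjectiveSquare (tens T) n := by
  classical
  intro hinj
  have h1 : Gam (tens T) n (Pi.single b 1) = Gam (tens T) n 0 := by
    rw [map_zero]
    funext s
    change ∑ e : Edges D n, (Pi.single b 1 : Bdry D n → ℂ) (bd e) * weight (tens T) s e = 0
    apply Finset.sum_eq_zero
    intro e _
    by_cases hb : bd e = b
    · have : weight (tens T) s e = 0 := by
        by_contra hw
        exact h ⟨e, hb, (weight_ne T s e hw).1⟩
      rw [this, mul_zero]
    · rw [Pi.single_eq_of_ne hb, zero_mul]
  have h2 := congrFun (hinj h1) b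
  simp at h2

end tiles

/-! ### The counter -/

section counter

variable {D : ℕ}

/-- letter `j` sends state `i` to: everything if `i = j`, `j` if `i < j`, `i` and `j` if `i > j`. -/
def Pr (j i k : Fin D) : Prop := i = j ∨ k = j ∨ (k = i ∧ j < i)

instance (j i k : Fin D) : Decidable (Pr j i k) := by unfold Pr; infer_instance

/-- set of states reachable from `l` by the first `k` letters of `w` -/
def Rs (w : ℕ → Fin D) (l : Fin D) : ℕ → Finset (Fin D)
  | 0 => {l}
  | k + 1 => univ.filter (fun r => ∃ i ∈ Rs w l k, Pr (w k) i r)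

lemma path_of_mem (w : ℕ → Fin D) (l : Fin D) (k : ℕ) (r : Fin D) (h : r ∈ Rs w l k) :
    ∃ p : ℕ → Fin D, p 0 = l ∧ p k = r ∧ ∀ i < k, Pr (w i) (p i) (p (i + 1)) := by
  induction k generalizing r with
  | zero =>
    refine ⟨fun _ => l, rfl, ?_, by intro i hi; omega⟩
    simpa [Rs, eq_comm] using h
  | succ k ih =>
    simp only [Rs, mem_filter, mem_univ, true_and] at h
    obtain ⟨i, hi, hP⟩ := h
    obtain ⟨p, hp0, hpk, hp⟩ := ih i hi
    refine ⟨fun a => if a ≤ k then p a else r, ?_, ?_, ?_⟩
    · simpa using hp0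
    · simp
    · intro a ha
      by_cases hak : a = k
      · subst hak
        simp only [le_refl, if_true, Nat.not_succ_le_self, if_false]
        rw [hpk]; exact hP
      · have h1 : a < k := by omega
        have h2 : a + 1 ≤ k := by omega
        simp only [h1.le, if_true, h2]
        exact hp a h1

def vl (S : Finset (Fin D)) : ℕ := ∑ i ∈ S, 2 ^ i.val

lemma sum_lt (j : Fin D) (S : Finset (Fin D)) (h : ∀ i ∈ S, i < j) : vl S < 2 ^ j.val := by
  unfold vl
  have h1 : ∑ i ∈ S, 2 ^ i.val = ∑ i ∈ S.map Fin.valEmbedding, 2 ^ i := by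
    rw [Finset.sum_map]; rfl
  rw [h1]
  have h2 : S.map Fin.valEmbedding ⊆ Finset.range j.val := by
    intro a ha
    rw [Finset.mem_map] at ha
    obtain ⟨i, hi, rfl⟩ := ha
    exact Finset.mem_range.mpr (h i hi)
  calc ∑ i ∈ S.map Fin.valEmbedding, 2 ^ i ≤ ∑ i ∈ Finset.range j.val, 2 ^ i :=
        Finset.sum_le_sum_of_subset h2
    _ < 2 ^ j.val := by
        rw [Nat.geomSum_eq (le_refl 2)]
        have : 0 < 2 ^ j.val := by positivity
        simp

lemma vl_univ_lt : vl (univ : Finset (Fin D)) + 1 = 2 ^ D := by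
  unfold vl
  rw [Fin.sum_univ_eq_sum_range (fun i => 2 ^ i) D, Nat.geomSum_eq (le_refl 2)]
  have : 0 < 2 ^ D := by positivity
  simp
  omega

lemma vl_ne_univ (S : Finset (Fin D)) (h : S ≠ univ) : vl S + 1 < 2 ^ D := by
  rw [← vl_univ_lt]
  apply Nat.add_lt_add_right
  obtain ⟨i, hi⟩ : ∃ i, i ∉ S := by
    by_contra hc
    push Not at hc
    exact h (Finset.eq_univ_of_forall hc)
  unfold vl
  exact Finset.sum_lt_sum_of_subset (Finset.subset_univ S) (Finset.mem_univ i) hi
    (by positivity) (fun _ _ _ => Nat.zero_le _)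

lemma Rs_growth (w : ℕ → Fin D) (l : Fin D) (k : ℕ) :
    k + 1 ≤ vl (Rs w l k) ∨ Rs w l k = univ := by
  induction k with
  | zero =>
    left
    simp only [Rs, vl, sum_singleton]
    exact Nat.one_le_two_pow
  | succ k ih =>
    by_cases hj : w k ∈ Rs w l k
    · right
      apply Finset.eq_univ_of_forall
      intro r
      simp only [Rs, mem_filter, mem_univ, true_and]
      exact ⟨w k, hj, Or.inl rfl⟩
    · rcases ih with ih | ih
      · left
        set S := Rs w l k with hS
        have hne : S.Nonempty := by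
          rw [Finset.nonempty_iff_ne_empty]
          rintro h0
          rw [h0] at ih
          simp [vl] at ih
        obtain ⟨i0, hi0⟩ := hne
        have hsub : insert (w k) (S.filter (fun i => w k < i)) ⊆ Rs w l (k + 1) := by
          intro r hr
          simp only [Rs, mem_filter, mem_univ, true_and]
          rw [Finset.mem_insert] at hr
          rcases hr with hr | hr
          · exact ⟨i0, hi0, Or.inr (Or.inl hr)⟩
          · rw [Finset.mem_filter] at hr
            exact ⟨r, hr.1, Or.inr (Or.inr ⟨rfl, hr.2⟩)⟩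
        have h1 : vl (insert (w k) (S.filter (fun i => w k < i))) ≤ vl (Rs w l (k + 1)) :=
          Finset.sum_le_sum_of_subset hsub
        have h2 : vl (insert (w k) (S.filter (fun i => w k < i)))
            = 2 ^ (w k).val + vl (S.filter (fun i => w k < i)) := by
          unfold vl
          rw [Finset.sum_insert]
          simp
        have h3 : vl S = vl (S.filter (fun i => i < w k)) + vl (S.filter (fun i => w k < i)) := by
          unfold vl
          rw [← Finset.sum_union]
          · apply Finset.sum_congr _ (fun _ _ => rfl)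
            ext i
            simp only [mem_union, mem_filter]
            constructor
            · intro hi
              rcases lt_trichotomy i (w k) with h | h | h
              · exact Or.inl ⟨hi, h⟩
              · exact absurd (h ▸ hi) hj
              · exact Or.inr ⟨hi, h⟩
            · rintro (h | h) <;> exact h.1
          · rw [Finset.disjoint_left]
            intro i hi hi2
            rw [Finset.mem_filter] at hi hi2
            exact lt_asymm hi.2 hi2.2
        have h4 := sum_lt (w k) (S.filter (fun i => i < w k)) (fun i hi => (Finset.mem_filter.mp hi).2)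
        omega
      · exact absurd (ih ▸ Finset.mem_univ _) hj

lemma Rs_full (w : ℕ → Fin D) (l : Fin D) (n : ℕ) (hn : 2 ^ D ≤ n + 2) : Rs w l n = univ := by
  by_contra h
  have h1 := vl_ne_univ _ h
  rcases Rs_growth w l n with h2 | h2
  · omega
  · exact h h2

lemma inc (N : ℕ) : ∃ j, N.testBit j = false ∧ (N + 1).testBit j = true ∧
    ∀ i, j < i → (N + 1).testBit i = N.testBit i := by
  induction N using Nat.strong_induction_on with
  | _ N ih =>
    rcases Nat.even_or_odd' N with ⟨M, hM | hM⟩
    · refine ⟨0, ?_, ?_, ?_⟩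
      · rw [Nat.testBit_zero]; simp; omega
      · rw [Nat.testBit_zero]; simp; omega
      · intro i hi
        obtain ⟨i', rfl⟩ : ∃ i', i = i' + 1 := ⟨i - 1, by omega⟩
        rw [Nat.testBit_succ, Nat.testBit_succ]
        congr 1
        omega
    · obtain ⟨j, h1, h2, h3⟩ := ih M (by omega)
      have e1 : N / 2 = M := by omega
      have e2 : (N + 1) / 2 = M + 1 := by omega
      refine ⟨j + 1, ?_, ?_, ?_⟩
      · rw [Nat.testBit_succ, e1]; exact h1
      · rw [Nat.testBit_succ, e2]; exact h2
      · intro i hi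
        obtain ⟨i', rfl⟩ : ∃ i', i = i' + 1 := ⟨i - 1, by omega⟩
        rw [Nat.testBit_succ, Nat.testBit_succ, e1, e2]
        exact h3 i' (by omega)

lemma inc' (N : ℕ) (h : N + 1 < 2 ^ D) : ∃ j : Fin D, N.testBit j = false ∧
    (N + 1).testBit j = true ∧ ∀ i : Fin D, j < i → (N + 1).testBit i = N.testBit i := by
  obtain ⟨j, h1, h2, h3⟩ := inc N
  have hj : j < D := by
    by_contra hc
    have h4 := Nat.testBit_lt_two_pow (x := N + 1) (i := j)
      (h.trans_le (Nat.pow_le_pow_right (by norm_num) (by omega)))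
    rw [h2] at h4
    simp at h4
  exact ⟨⟨j, hj⟩, h1, h2, fun i hi => h3 i hi⟩

lemma missing (N : ℕ) (h : N + 1 < 2 ^ D) : ∃ r : Fin D, N.testBit r = false := by
  by_contra hc
  push Not at hc
  have h1 : N = 2 ^ D - 1 := by
    apply Nat.eq_of_testBit_eq
    intro i
    rw [Nat.testBit_two_pow_sub_one]
    by_cases hi : i < D
    · have := hc ⟨i, hi⟩
      simp only [Bool.not_eq_false] at this
      rw [this]
      simp [hi]
    · rw [Nat.testBit_lt_two_pow]
      · simp [hi]
      · calc N < 2 ^ D := by omega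
          _ ≤ 2 ^ i := Nat.pow_le_pow_right (by norm_num) (by omega)
  omega

end counter

/-- The tile set: the vertical index below acts as a letter of the counter on the horizontal index. -/
def TS (D : ℕ) (l r _u d : Fin D) : Prop := Pr d l r

lemma fill_all (D : ℕ) (hD : 2 ≤ D) (n : ℕ) (hn : n = 2 ^ D - 2) (b : Bdry D n) :
    Fillable (TS D) n b := by
  have h4 : 4 ≤ 2 ^ D := by
    calc 4 = 2 ^ 2 := by norm_num
      _ ≤ 2 ^ D := Nat.pow_le_pow_right (by norm_num) hD
  have hn1 : 0 < n := by omega
  obtain ⟨L, R, Tp, B⟩ := b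
  set w : ℕ → Fin D := fun i => if h : i < n then B ⟨i, h⟩ else B ⟨0, hn1⟩ with hw
  have hp : ∀ j : Fin n, ∃ p : ℕ → Fin D, p 0 = L j ∧ p n = R j ∧
      ∀ i < n, Pr (w i) (p i) (p (i + 1)) := by
    intro j
    apply path_of_mem
    rw [Rs_full w (L j) n (by omega)]
    exact Finset.mem_univ _
  choose p hp0 hpn hpi using hp
  refine ⟨(fun a j => p j a.val, fun i a => if a = Fin.last n then Tp i else B i), ?_, ?_⟩
  · unfold bd
    have h0 : (0 : Fin (n + 1)) ≠ Fin.last n := by
      intro h
      have := congrArg Fin.val h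
      simp at this
      omega
    refine Prod.ext ?_ (Prod.ext ?_ (Prod.ext ?_ ?_))
    · funext j; exact hp0 j
    · funext j; exact hpn j
    · funext i; simp
    · funext i; simp [h0]
  · intro i j
    unfold TS
    have h1 : j.castSucc ≠ Fin.last n := (Fin.castSucc_lt_last j).ne
    simp only [h1, if_false]
    have h2 := hpi j i.val i.isLt
    simp only [hw, i.isLt, dif_pos] at h2
    exact h2

lemma not_fill (D n : ℕ) (hn1 : 1 ≤ n) (hn : n + 2 < 2 ^ D) :
    ∃ b : Bdry D n, ¬ Fillable (TS D) n b := by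
  have hD : 0 < D := by
    rcases Nat.eq_zero_or_pos D with h | h
    · subst h; simp at hn
    · exact h
  have hj : ∀ k : Fin n, ∃ j : Fin D, (k.val + 1).testBit j = false ∧
      (k.val + 1 + 1).testBit j = true ∧
      ∀ i : Fin D, j < i → (k.val + 1 + 1).testBit i = (k.val + 1).testBit i := by
    intro k
    apply inc'
    have := k.isLt
    omega
  choose B hB1 hB2 hB3 using hj
  obtain ⟨r, hr⟩ := missing (D := D) (n + 1) (by omega)
  refine ⟨(fun _ => ⟨0, hD⟩, fun _ => r, fun _ => r, B), ?_⟩
  rintro ⟨e, hb, hv⟩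
  have hL : e.1 0 ⟨0, hn1⟩ = ⟨0, hD⟩ := congrFun (congrArg Prod.fst hb) ⟨0, hn1⟩
  have hR : e.1 (Fin.last n) ⟨0, hn1⟩ = r :=
    congrFun (congrArg (fun x => x.2.1) hb) ⟨0, hn1⟩
  have hBt : ∀ i, e.2 i 0 = B i := fun i => congrFun (congrArg (fun x => x.2.2.2) hb) i
  have key : ∀ a : ℕ, ∀ ha : a < n + 1,
      (a + 1).testBit (e.1 ⟨a, ha⟩ ⟨0, hn1⟩).val = true := by
    intro a
    induction a with
    | zero =>
      intro ha
      have : e.1 ⟨0, ha⟩ ⟨0, hn1⟩ = ⟨0, hD⟩ := hL
      rw [this]
      simp
    | succ a ih =>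
      intro ha
      have han : a < n := by omega
      have h1 := ih (by omega)
      have h2 := hv ⟨a, han⟩ ⟨0, hn1⟩
      unfold TS at h2
      have h3 : e.2 ⟨a, han⟩ (Fin.castSucc ⟨0, hn1⟩) = B ⟨a, han⟩ := hBt ⟨a, han⟩
      rw [h3] at h2
      have h4 : (Fin.castSucc ⟨a, han⟩ : Fin (n + 1)) = ⟨a, by omega⟩ := rfl
      have h5 : (Fin.succ ⟨a, han⟩ : Fin (n + 1)) = ⟨a + 1, ha⟩ := rfl
      rw [h4, h5] at h2
      have hb1 := hB1 ⟨a, han⟩
      have hb2 := hB2 ⟨a, han⟩
      have hb3 := hB3 ⟨a, han⟩
      rcases h2 with h2 | h2 | h2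
      · rw [h2] at h1
        rw [hb1] at h1
        simp at h1
      · rw [h2]; exact hb2
      · rw [h2.1, hb3 _ h2.2]; exact h1
  have h6 := key n (by omega)
  have h7 : e.1 ⟨n, by omega⟩ ⟨0, hn1⟩ = r := hR
  rw [h7, hr] at h6
  simp at h6

theorem index_eq (D : ℕ) (hD : 2 ≤ D) :
    IsNormal (tens (TS D)) ∧ injIndex (tens (TS D)) = 2 ^ D - 2 := by
  have h4 : 4 ≤ 2 ^ D := by
    calc 4 = 2 ^ 2 := by norm_num
      _ ≤ 2 ^ D := Nat.pow_le_pow_right (by norm_num) hD
  have hinj : InjectiveSquare (tens (TS D)) (2 ^ D - 2) :=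
    inj_of_fillable (TS D) (by omega) (fill_all D hD _ rfl)
  refine ⟨⟨2 ^ D - 2, by omega, hinj⟩, ?_⟩
  have h1n : 1 ≤ 2 ^ D - 2 := by omega
  have hne : {n | 1 ≤ n ∧ InjectiveSquare (tens (TS D)) n}.Nonempty :=
    ⟨2 ^ D - 2, h1n, hinj⟩
  unfold injIndex
  apply le_antisymm
  · exact Nat.sInf_le ⟨h1n, hinj⟩
  · apply le_csInf hne
    rintro n ⟨hn1, hn⟩
    by_contra hc
    obtain ⟨b, hb⟩ := not_fill D n hn1 (by omega)
    exact not_inj_of_not_fillable (TS D) b hb hn

/-- For every bond dimension `D ≥ 2` some normal PEPS tensor has injectivity index exactly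
`2^D - 2`; hence `F D ≥ 2^D - 2`. -/
theorem result :
    (∀ D : ℕ, 2 ≤ D → ∃ (d : ℕ) (A : Tensor d D), 1 ≤ d ∧ IsNormal A ∧ injIndex A = 2 ^ D - 2) ∧
    (∀ D : ℕ, 2 ≤ D → ((2 ^ D - 2 : ℕ) : ℕ∞) ≤ F D) := by
  refine ⟨fun D hD => ?_, fun D hD => ?_⟩
  · obtain ⟨h1, h2⟩ := index_eq D hD
    refine ⟨_, tens (TS D), ?_, h1, h2⟩
    have : Nonempty (Tile D) := ⟨(⟨0, by omega⟩, ⟨0, by omega⟩, ⟨0, by omega⟩, ⟨0, by omega⟩)⟩
    exact Fintype.card_pos
  · obtain ⟨h1, h2⟩ := index_eq D hD
    rw [← h2]
    unfold F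
    exact le_iSup_of_le _ (le_iSup_of_le (tens (TS D)) (le_iSup_of_le h1 le_rfl))

end Pool.Agent.Results.MP_a2a8ea_mp.ExpLower
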